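import Pool.Agent.H113Z.Dist.Defs

/-! Calculus of the asymptotic classes `Dcl`, `Fcl`. -/

namespace Pool.Agent.H113Z.Dist
open Filter Topology Set Asymptotics

namespace H975

theorem op_mul {f g : ℝ → ℝ} {r s : ℝ} (hf : OP f r) (hg : OP g s) :
    OP (fun y => f y * g y) (r + s) := by
  unfold OP at *
  refine (hf.mul hg).congr' EventuallyEq.rfl ?_
  filter_upwards [eventually_gt_atTop (0 : ℝ)] with y hy
  rw [Real.rpow_add hy]

theorem op_mono {f : ℝ → ℝ} {r s : ℝ} (hf : OP f r) (h : r ≤ s) : OP f s := by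
  unfold OP at *
  refine hf.trans (IsBigO.of_bound' ?_)
  filter_upwards [eventually_ge_atTop (1 : ℝ)] with y hy
  have h0 : (0 : ℝ) ≤ y := by linarith
  rw [Real.norm_of_nonneg (Real.rpow_nonneg h0 _), Real.norm_of_nonneg (Real.rpow_nonneg h0 _)]
  exact Real.rpow_le_rpow_of_exponent_le hy h

theorem op_mul' {f g : ℝ → ℝ} {r s t : ℝ} (hf : OP f r) (hg : OP g s) (h : r + s ≤ t) :
    OP (fun y => f y * g y) t := op_mono (op_mul hf hg) h

theorem op_add {f g : ℝ → ℝ} {r : ℝ} (hf : OP f r) (hg : OP g r) :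
    OP (fun y => f y + g y) r := IsBigO.add hf hg

theorem op_sub {f g : ℝ → ℝ} {r : ℝ} (hf : OP f r) (hg : OP g r) :
    OP (fun y => f y - g y) r := IsBigO.sub hf hg

theorem op_neg {f : ℝ → ℝ} {r : ℝ} (hf : OP f r) : OP (fun y => - f y) r := IsBigO.neg_left hf

theorem op_cmul {f : ℝ → ℝ} {r : ℝ} (c : ℝ) (hf : OP f r) : OP (fun y => c * f y) r :=
  IsBigO.const_mul_left hf c

theorem op_congr {f g : ℝ → ℝ} {r : ℝ} (hf : OP f r) (h : ∀ y, f y = g y) : OP g r := by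
  have : f = g := funext h
  exact this ▸ hf

theorem op_const (c : ℝ) : OP (fun _ => c) 0 := by
  unfold OP
  simp only [Real.rpow_zero]
  exact isBigO_const_const c one_ne_zero atTop

theorem op_id : OP (fun y => y) 1 := by
  unfold OP
  simp only [Real.rpow_one]
  exact isBigO_refl _ _

theorem op_tendsto {f : ℝ → ℝ} {r : ℝ} (hf : OP f r) (h : r < 0) : Tendsto f atTop (𝓝 0) := by
  unfold OP at hf
  refine hf.trans_tendsto ?_
  have := tendsto_rpow_neg_atTop (y := -r) (by linarith)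
  simpa using this

theorem op_of_tendsto {f : ℝ → ℝ} {c : ℝ} (hf : Tendsto f atTop (𝓝 c)) : OP f 0 := by
  unfold OP
  simp only [Real.rpow_zero]
  exact hf.isBigO_one ℝ

theorem op_bound {f : ℝ → ℝ} {r : ℝ} (hf : OP f r) :
    ∃ C, 0 < C ∧ ∀ᶠ y in atTop, |f y| ≤ C * y ^ r := by
  obtain ⟨C, hC, h⟩ := IsBigO.exists_pos hf
  refine ⟨C, hC, ?_⟩
  filter_upwards [h.bound, eventually_ge_atTop (0 : ℝ)] with y hy h0
  rwa [Real.norm_eq_abs, Real.norm_of_nonneg (Real.rpow_nonneg h0 _)] at hy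

/-- maps comparable with the identity at infinity -/
def Cmp (g : ℝ → ℝ) : Prop := ∃ a b : ℝ, 0 < a ∧ ∀ᶠ y in atTop, a * y ≤ g y ∧ g y ≤ b * y

theorem Cmp.tendsto {g : ℝ → ℝ} (hg : Cmp g) : Tendsto g atTop atTop := by
  obtain ⟨a, b, ha, h⟩ := hg
  exact tendsto_atTop_mono' atTop (h.mono fun y hy => hy.1) (tendsto_id.const_mul_atTop ha)

theorem op_comp {f g : ℝ → ℝ} {r : ℝ} (hf : OP f r) (hg : Cmp g) : OP (fun y => f (g y)) r := by
  have ht := hg.tendsto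
  obtain ⟨a, b, ha, h⟩ := hg
  have h1 : (fun y => f (g y)) =O[atTop] fun y => (g y) ^ r := IsBigO.comp_tendsto hf ht
  refine h1.trans (IsTheta.rpow (ht.eventually (eventually_ge_atTop 0))
    (g := fun y : ℝ => y) (eventually_ge_atTop 0) ⟨?_, ?_⟩).isBigO
  · refine IsBigO.of_bound b ?_
    filter_upwards [h, eventually_ge_atTop (0 : ℝ)] with y hy h0
    have : 0 ≤ g y := le_trans (mul_nonneg ha.le h0) hy.1
    rw [Real.norm_of_nonneg this, Real.norm_of_nonneg h0]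
    exact hy.2
  · refine IsBigO.of_bound a⁻¹ ?_
    filter_upwards [h, eventually_ge_atTop (0 : ℝ)] with y hy h0
    have : 0 ≤ g y := le_trans (mul_nonneg ha.le h0) hy.1
    rw [Real.norm_of_nonneg this, Real.norm_of_nonneg h0, le_inv_mul_iff₀ ha]
    exact hy.1

theorem cmp_of_bdd {g : ℝ → ℝ} {M : ℝ} (h : ∀ y, |g y - y| ≤ M) : Cmp g := by
  refine ⟨1 / 2, 2, by norm_num, ?_⟩
  filter_upwards [eventually_ge_atTop (2 * M), eventually_ge_atTop (0 : ℝ)] with y hy h0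
  have := abs_le.1 (h y)
  constructor <;> linarith [this.1, this.2]

theorem cmp_div (c : ℝ) (hc : 0 < c) : Cmp (fun y => y / c) := by
  refine ⟨c⁻¹, c⁻¹, inv_pos.2 hc, Eventually.of_forall fun y => ?_⟩
  simp [div_eq_inv_mul]

theorem deriv_op {F : ℝ → ℝ} (h : OP (fun y => deriv F y - 1) (-2)) : OP (deriv F) 0 :=
  op_congr (op_add (op_mono h (by norm_num)) (op_const 1)) fun y => by ring

theorem ca {f : Pm} (hf : Good f) (n : ℕ) (hn : n ≤ 4) (x : ℝ) : ContDiffAt ℝ n f x :=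
  (hf.1.of_le (by exact_mod_cast hn)).contDiffAt

theorem d1 {f g : Pm} (hf : Good f) (hg : Good g) (x : ℝ) :
    deriv (⇑(f * g)) x = deriv f (g x) * deriv g x := by
  rw [Equiv.Perm.coe_mul]
  exact deriv_comp x ((ca hf 1 (by norm_num) _).differentiableAt (by simp))
    ((ca hg 1 (by norm_num) _).differentiableAt (by simp))

theorem d2 {f g : Pm} (hf : Good f) (hg : Good g) (x : ℝ) :
    D 2 (⇑(f * g)) x = D 2 f (g x) * deriv g x ^ 2 + deriv f (g x) * D 2 g x := by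
  rw [Equiv.Perm.coe_mul]
  exact iteratedDeriv_comp_two (ca hf 2 (by norm_num) _) (ca hg 2 (by norm_num) _)

theorem d3 {f g : Pm} (hf : Good f) (hg : Good g) (x : ℝ) :
    D 3 (⇑(f * g)) x = D 3 f (g x) * deriv g x ^ 3 + 3 * D 2 f (g x) * D 2 g x * deriv g x
      + deriv f (g x) * D 3 g x := by
  rw [Equiv.Perm.coe_mul]
  exact iteratedDeriv_comp_three (ca hf 3 (by norm_num) _) (ca hg 3 (by norm_num) _)

theorem d4 (hT : ToolStmt) {f g : Pm} (hf : Good f) (hg : Good g) (x : ℝ) :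
    D 4 (⇑(f * g)) x = D 4 f (g x) * deriv g x ^ 4 + 6 * D 3 f (g x) * deriv g x ^ 2 * D 2 g x
      + 3 * D 2 f (g x) * D 2 g x ^ 2 + 4 * D 2 f (g x) * deriv g x * D 3 g x
      + deriv f (g x) * D 4 g x := by
  rw [Equiv.Perm.coe_mul]
  exact hT.2.2.2.2.2.1 f g x hf.1.contDiffAt hg.1.contDiffAt

theorem dcl_mul (hT : ToolStmt) {f g : Pm} (hf : Dcl f) (hg : Dcl g) : Dcl (f * g) := by
  obtain ⟨gf, ⟨Mf, bf⟩, f1, f2, f3, f4⟩ := hf
  obtain ⟨gg, ⟨Mg, bg⟩, g1, g2, g3, g4⟩ := hg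
  have hc : Cmp g := cmp_of_bdd bg
  have f0c := op_comp (deriv_op f1) hc
  have f1c := op_comp f1 hc
  have f2c := op_comp f2 hc
  have f3c := op_comp f3 hc
  have f4c := op_comp f4 hc
  have g0 := deriv_op g1
  have g00 : OP (fun y => deriv g y * deriv g y) 0 := op_mul' g0 g0 (by norm_num)
  refine ⟨hT.1 f g gf gg, ⟨Mf + Mg, fun y => ?_⟩, ?_, ?_, ?_, ?_⟩
  · have h1 := abs_le.1 (bf (g y))
    have h2 := abs_le.1 (bg y)
    rw [Equiv.Perm.mul_apply, abs_le]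
    constructor <;> linarith [h1.1, h1.2, h2.1, h2.2]
  · refine op_congr (op_add (op_mul' f1c g0 (by norm_num)) g1) fun y => ?_
    rw [d1 gf gg]; ring
  · refine op_congr (op_add (op_mul' f2c g00 (by norm_num)) (op_mul' f0c g2 (by norm_num)))
      fun y => ?_
    rw [d2 gf gg]; ring
  · refine op_congr (op_add (op_add (op_mul' (op_mul f3c g00) g0 (by norm_num))
      (op_cmul 3 (op_mul' (op_mul f2c g2) g0 (by norm_num)))) (op_mul' f0c g3 (by norm_num)))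
      fun y => ?_
    rw [d3 gf gg]; ring
  · refine op_congr (op_add (op_add (op_add (op_add
      (op_mul' (op_mul f4c g00) g00 (by norm_num))
      (op_cmul 6 (op_mul' (op_mul f3c g00) g2 (by norm_num))))
      (op_cmul 3 (op_mul' (op_mul f2c g2) g2 (by norm_num))))
      (op_cmul 4 (op_mul' (op_mul f2c g0) g3 (by norm_num))))
      (op_mul' f0c g4 (by norm_num))) fun y => ?_
    rw [d4 hT gf gg]; ring

theorem app_inv (f : Pm) (y : ℝ) : f (f⁻¹ y) = y := f.apply_symm_apply y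

theorem inv_d1 (hT : ToolStmt) {f : Pm} (gf : Good f) (x : ℝ) :
    deriv f (f⁻¹ x) * deriv (⇑f⁻¹) x = 1 := by
  rw [← d1 gf (hT.2.1 f gf), mul_inv_cancel, Equiv.Perm.coe_one, deriv_id]

theorem one_d (k : ℕ) (hk : 2 ≤ k) (x : ℝ) : D k (⇑(1 : Pm)) x = 0 := by
  rw [Equiv.Perm.coe_one]
  show iteratedDeriv k id x = 0
  rw [iteratedDeriv_id, if_neg (by omega), if_neg (by omega)]

theorem dcl_inv (hT : ToolStmt) {f : Pm} (hf : Dcl f) : Dcl f⁻¹ := by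
  obtain ⟨gf, ⟨Mf, bf⟩, f1, f2, f3, f4⟩ := hf
  have gg : Good f⁻¹ := hT.2.1 f gf
  have bg : ∀ y, |f⁻¹ y - y| ≤ Mf := fun y => by
    have := bf (f⁻¹ y)
    rwa [app_inv, abs_sub_comm] at this
  have hc : Cmp ⇑f⁻¹ := cmp_of_bdd bg
  have f1c := op_comp f1 hc
  have f2c := op_comp f2 hc
  have f3c := op_comp f3 hc
  have f4c := op_comp f4 hc
  have e1 := inv_d1 hT gf
  have g0 : OP (deriv ⇑f⁻¹) 0 := by
    have t1 : Tendsto (fun y => deriv f (f⁻¹ y)) atTop (𝓝 1) := by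
      have := (op_tendsto f1c (by norm_num)).add_const 1
      simpa using this
    have t2 := t1.inv₀ one_ne_zero
    refine op_congr (op_of_tendsto t2) fun y => ?_
    exact (eq_inv_of_mul_eq_one_right (e1 y)).symm
  have g00 : OP (fun y => deriv (⇑f⁻¹) y * deriv (⇑f⁻¹) y) 0 := op_mul' g0 g0 (by norm_num)
  have g1 : OP (fun y => deriv (⇑f⁻¹) y - 1) (-2) := by
    refine op_congr (op_neg (op_mul' f1c g0 (by norm_num))) fun y => ?_
    linear_combination (-1 : ℝ) * e1 y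
  have g2 : OP (D 2 ⇑f⁻¹) (-2) := by
    refine op_congr (op_neg (op_mul' (op_mul f2c g00) g0 (by norm_num))) fun y => ?_
    have e := d2 gf gg y
    rw [mul_inv_cancel, one_d 2 le_rfl] at e
    linear_combination (deriv (⇑f⁻¹) y) * e + (D 2 (⇑f⁻¹) y) * e1 y
  have g3 : OP (D 3 ⇑f⁻¹) (-11 / 4) := by
    refine op_congr (op_neg (op_mul' (op_add (op_mul' (op_mul f3c g00) g0 (le_refl _))
      (op_cmul 3 (op_mul' (op_mul f2c g2) g0 (by norm_num)))) g0 (by norm_num))) fun y => ?_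
    have e := d3 gf gg y
    rw [mul_inv_cancel, one_d 3 (by norm_num)] at e
    linear_combination (deriv (⇑f⁻¹) y) * e + (D 3 (⇑f⁻¹) y) * e1 y
  have g4 : OP (D 4 ⇑f⁻¹) (-7 / 2) := by
    refine op_congr (op_neg (op_mul' (op_add (op_add (op_add
      (op_mul' (op_mul f4c g00) g00 (t := -7 / 2) (by norm_num))
      (op_cmul 6 (op_mul' (op_mul f3c g00) g2 (by norm_num))))
      (op_cmul 3 (op_mul' (op_mul f2c g2) g2 (by norm_num))))
      (op_cmul 4 (op_mul' (op_mul f2c g0) g3 (by norm_num)))) g0 (by norm_num))) fun y => ?_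
    have e := d4 hT gf gg y
    rw [mul_inv_cancel, one_d 4 (by norm_num)] at e
    linear_combination (deriv (⇑f⁻¹) y) * e + (D 4 (⇑f⁻¹) y) * e1 y
  exact ⟨gg, ⟨Mf, bg⟩, g1, g2, g3, g4⟩

theorem fcl_mul (hT : ToolStmt) (f g : Pm) (c c' : ℝ) (ζ : ℝ → ℝ) (hf : Fcl f c (fun _ => 0))
    (hg : Fcl g c' ζ) : Fcl (f * g) (c + c') ζ := by
  refine ⟨dcl_mul hT hf.1 hg.1, ?_, hg.2.2.1, ?_⟩
  · obtain ⟨⟨gf, ⟨Mf, bf⟩, f1, f2, f3, f4⟩, fa, fb, fc⟩ := hf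
    obtain ⟨⟨gg, ⟨Mg, bg⟩, g1, g2, g3, g4⟩, ga, gb, gc⟩ := hg
    refine op_congr (op_add (op_comp fa (cmp_of_bdd bg)) ga) fun y => ?_
    rw [Equiv.Perm.mul_apply]; ring
  · obtain ⟨⟨gf, ⟨Mf, bf⟩, f1, f2, f3, f4⟩, fa, fb, fc⟩ := hf
    obtain ⟨⟨gg, ⟨Mg, bg⟩, g1, g2, g3, g4⟩, ga, gb, gc⟩ := hg
    have hc : Cmp g := cmp_of_bdd bg
    have g0 := deriv_op g1
    refine op_congr (op_add (op_add (op_mul' (op_mul (op_comp fc hc) g0) g0 (by norm_num))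
      (op_mul' (op_comp f1 hc) g2 (by norm_num))) gc) fun y => ?_
    rw [d2 gf gg]; ring

theorem s2_pow (i : ℕ) (y : ℝ) : (S2 ^ i) y = 2 ^ i * y := by
  induction i with
  | zero => simp
  | succ n ih => rw [pow_succ', Equiv.Perm.mul_apply, ih, S2_apply]; ring

theorem s2_pow_inv (i : ℕ) (y : ℝ) : (S2 ^ i)⁻¹ y = y / 2 ^ i := by
  rw [Equiv.Perm.inv_eq_iff_eq, s2_pow]; field_simp

theorem conj_eq (g : Pm) (i : ℕ) :
    ⇑(S2 ^ i * g * (S2 ^ i)⁻¹) = fun y => 2 ^ i * g (((2 : ℝ) ^ i)⁻¹ * y) := by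
  funext y
  rw [Equiv.Perm.mul_apply, Equiv.Perm.mul_apply, s2_pow, s2_pow_inv, div_eq_inv_mul]

theorem conj_D {g : Pm} (gg : Good g) (i k : ℕ) (hk : k ≤ 4) (y : ℝ) :
    D k (⇑(S2 ^ i * g * (S2 ^ i)⁻¹)) y
      = 2 ^ i * (((2 : ℝ) ^ i)⁻¹) ^ k * D k g (y / 2 ^ i) := by
  rw [conj_eq]
  show iteratedDeriv k (fun y => 2 ^ i * g (((2 : ℝ) ^ i)⁻¹ * y)) y = _
  rw [iteratedDeriv_const_mul_field,
    iteratedDeriv_comp_const_mul (gg.1.of_le (by exact_mod_cast hk)), div_eq_inv_mul]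
  simp only [D]; ring

theorem conj_deriv {g : Pm} (gg : Good g) (i : ℕ) (y : ℝ) :
    deriv (⇑(S2 ^ i * g * (S2 ^ i)⁻¹)) y = deriv g (y / 2 ^ i) := by
  have := conj_D gg i 1 (by norm_num) y
  simp only [D, iteratedDeriv_one] at this
  rw [this]; field_simp

theorem fcl_conj (g : Pm) (c : ℝ) (ζ : ℝ → ℝ) (i : ℕ) (hg : Fcl g c ζ) :
    Fcl (S2 ^ i * g * (S2 ^ i)⁻¹) (2 ^ i * c) (fun y => ζ (y / 2 ^ i) / 2 ^ i) := by
  obtain ⟨⟨gg, ⟨Mg, bg⟩, g1, g2, g3, g4⟩, ga, gb, gc⟩ := hg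
  have hp : (0 : ℝ) < 2 ^ i := by positivity
  have hc : Cmp (fun y => y / 2 ^ i) := cmp_div _ hp
  have happ : ∀ y, (S2 ^ i * g * (S2 ^ i)⁻¹) y = 2 ^ i * g (y / 2 ^ i) := fun y => by
    rw [conj_eq, div_eq_inv_mul]
  refine ⟨⟨⟨?_, fun y => ?_⟩, ⟨2 ^ i * Mg, fun y => ?_⟩, ?_, ?_, ?_, ?_⟩, ?_, ?_, ?_⟩
  · rw [conj_eq]
    exact contDiff_const.mul (gg.1.comp (contDiff_const.mul contDiff_id))
  · rw [conj_deriv gg]; exact gg.2 _
  · have : (S2 ^ i * g * (S2 ^ i)⁻¹) y - y = 2 ^ i * (g (y / 2 ^ i) - y / 2 ^ i) := by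
      rw [happ]; field_simp
    rw [this, abs_mul, abs_of_pos hp]
    exact mul_le_mul_of_nonneg_left (bg _) hp.le
  · exact op_congr (op_comp g1 hc) fun y => by rw [conj_deriv gg]
  · exact op_congr (op_cmul _ (op_comp g2 hc)) fun y => (conj_D gg i 2 (by norm_num) y).symm
  · exact op_congr (op_cmul _ (op_comp g3 hc)) fun y => (conj_D gg i 3 (by norm_num) y).symm
  · exact op_congr (op_cmul _ (op_comp g4 hc)) fun y => (conj_D gg i 4 (by norm_num) y).symm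
  · refine op_congr (op_cmul (2 ^ i) (op_comp ga hc)) fun y => ?_
    rw [happ]; field_simp
  · refine op_congr (op_cmul ((2 : ℝ) ^ i)⁻¹ (op_comp gb hc)) fun y => ?_
    rw [div_eq_inv_mul (ζ _)]
  · refine op_congr (op_cmul ((2 : ℝ) ^ i)⁻¹ (op_comp gc hc)) fun y => ?_
    rw [conj_D gg i 2 (by norm_num)]; field_simp

theorem fcl_oc (f : Pm) (c : ℝ) (ζ : ℝ → ℝ) (hf : Fcl f c ζ) : OC f 1 c := by
  obtain ⟨⟨gf, ⟨Mf, bf⟩, f1, f2, f3, f4⟩, fa, fb, fc⟩ := hf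
  refine ⟨⟨0, (gf.1.of_le (by norm_num)).contDiffOn⟩, ?_, ?_, ?_⟩
  · simpa using op_tendsto fa (by norm_num)
  · exact op_tendsto (op_mul op_id f1) (by norm_num)
  · have h2 : OP (D 2 f) (-29 / 10) :=
      op_congr (op_add fb (op_mono fc (by norm_num))) fun y => by ring
    refine op_tendsto (op_congr (op_mul op_id (op_mul op_id h2)) fun y => by ring) (by norm_num)

end H975

open H975

theorem fcl1 (hT : ToolStmt) : FclStmt1 :=
  ⟨fcl_mul hT, fcl_conj, fcl_oc⟩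

theorem fcl2 (hT : ToolStmt) : FclStmt2 := by
  intro G W c ζ1 ζ2 hG hW
  have hV := dcl_inv hT hW.1
  have hρ := dcl_mul hT hG.1 hV
  obtain ⟨⟨gG, -, G1, G2, -, -⟩, Ga, -, Gc⟩ := hG
  obtain ⟨⟨gW, -, W1, W2, -, -⟩, Wa, -, Wc⟩ := hW
  obtain ⟨gV, ⟨MV, bV⟩, V1, V2, -, -⟩ := hV
  obtain ⟨gρ, -, r1, r2, r3, r4⟩ := hρ
  have hc : Cmp ⇑W⁻¹ := cmp_of_bdd bV
  have V0 := deriv_op V1
  have r0 : OP (fun x => (G * W⁻¹) x - x) (-1) := by
    refine op_congr (op_sub (op_comp Ga hc) (op_comp Wa hc)) fun y => ?_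
    rw [Equiv.Perm.mul_apply, app_inv]; ring
  have r5 : OP (fun x => D 2 (⇑(G * W⁻¹)) x
      - deriv (⇑W⁻¹) x ^ 2 * (ζ1 (W⁻¹ x) - ζ2 (W⁻¹ x))) (-19 / 5) := by
    refine op_congr (op_mul' (op_mul V0 V0) (op_sub (op_sub (op_comp Gc hc) (op_comp Wc hc))
      (op_mul' r1 (op_comp W2 hc) (by norm_num))) (by norm_num)) fun y => ?_
    have e := d2 gW gV y
    rw [mul_inv_cancel, one_d 2 le_rfl] at e
    have e1 := inv_d1 hT gW y
    rw [d2 gG gV, d1 gG gV]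
    linear_combination (deriv G (W⁻¹ y) * deriv (⇑W⁻¹) y) * e
      + (deriv G (W⁻¹ y) * D 2 (⇑W⁻¹) y) * e1
  have hV2 : ∀ᶠ x in atTop, deriv (⇑W⁻¹) x ^ 2 ≤ 2 := by
    have t1 : Tendsto (fun y => deriv (⇑W⁻¹) y) atTop (𝓝 1) := by
      have := (op_tendsto V1 (by norm_num)).add_const 1
      simpa using this
    have t2 := t1.pow 2
    exact t2.eventually (eventually_le_nhds (by norm_num))
  obtain ⟨C0, p0, b0⟩ := op_bound r0
  obtain ⟨C1, p1, b1⟩ := op_bound (op_mono r1 (s := -5 / 4) (by norm_num))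
  obtain ⟨C2, p2, b2⟩ := op_bound r2
  obtain ⟨C3, p3, b3⟩ := op_bound r3
  obtain ⟨C4, p4, b4⟩ := op_bound r4
  obtain ⟨C5, p5, b5⟩ := op_bound r5
  obtain ⟨X, hX⟩ := eventually_atTop.1
    (b0.and (b1.and (b2.and (b3.and (b4.and (b5.and (hV2.and (eventually_gt_atTop (0 : ℝ)))))))))
  refine ⟨C0 + C1 + C2 + C3 + C4 + C5, X, by positivity, fun x hx => ?_⟩
  obtain ⟨a0, a1, a2, a3, a4, a5, a6, x0⟩ := hX x hx
  have up : ∀ {v C r : ℝ}, C ≤ C0 + C1 + C2 + C3 + C4 + C5 → v ≤ C * x ^ r →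
      v ≤ (C0 + C1 + C2 + C3 + C4 + C5) * x ^ r := fun hC hv =>
    hv.trans (mul_le_mul_of_nonneg_right hC (Real.rpow_nonneg x0.le _))
  have q : ∀ (C : ℝ) (k : ℕ), C * x ^ (-5 / 4 : ℝ) / (x ^ (3 / 4 : ℝ)) ^ k
      = C * x ^ (-5 / 4 - 3 / 4 * k : ℝ) := fun C k => by
    rw [← Real.rpow_natCast, ← Real.rpow_mul x0.le, Real.rpow_sub x0, mul_div_assoc]
  refine ⟨?_, ⟨up (by linarith) a1, ?_, ?_, ?_⟩, ?_⟩
  · have := up (by linarith) a0
    rwa [Real.rpow_neg_one, ← div_eq_mul_inv] at this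
  · have := q (C0 + C1 + C2 + C3 + C4 + C5) 1
    rw [pow_one] at this
    rw [this, show (-5 / 4 - 3 / 4 * (1 : ℕ) : ℝ) = -2 by norm_num]
    exact up (by linarith) a2
  · rw [q, show (-5 / 4 - 3 / 4 * (2 : ℕ) : ℝ) = -11 / 4 by norm_num]
    exact up (by linarith) a3
  · rw [q, show (-5 / 4 - 3 / 4 * (3 : ℕ) : ℝ) = -7 / 2 by norm_num]
    exact up (by linarith) a4
  · have h5 := up (by linarith) a5
    have h6 : |deriv (⇑W⁻¹) x ^ 2 * (ζ1 (W⁻¹ x) - ζ2 (W⁻¹ x))|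
        ≤ 2 * |ζ1 (W⁻¹ x) - ζ2 (W⁻¹ x)| := by
      rw [abs_mul, abs_of_nonneg (sq_nonneg _)]
      exact mul_le_mul_of_nonneg_right a6 (abs_nonneg _)
    have h7 := abs_add_le (deriv (⇑W⁻¹) x ^ 2 * (ζ1 (W⁻¹ x) - ζ2 (W⁻¹ x)))
      (D 2 (⇑(G * W⁻¹)) x - deriv (⇑W⁻¹) x ^ 2 * (ζ1 (W⁻¹ x) - ζ2 (W⁻¹ x)))
    rw [add_sub_cancel] at h7
    linarith

end Pool.Agent.H113Z.Dist
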